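import Pool.Agent.Helper20.RG.St3

set_option autoImplicit false

open MeasureTheory Set Filter Topology

namespace Pool.Agent.Helper39.RG

open Pool.Agent.Helper20.RG

/-- the largest 1-Lipschitz extension -/
private noncomputable def ext (ℓ : ℝ) (φ₀ : ℝ → ℝ) (t : ℝ) : ℝ := ⨅ s : Ioo (0 : ℝ) ℓ, (φ₀ s + |t - s|)

theorem hGEX : StGEX := by
  intro ℓ φ₀ τ₀ hℓ hτ hφ
  have hne : Nonempty (Ioo (0 : ℝ) ℓ) := ⟨⟨ℓ / 2, by constructor <;> linarith⟩⟩
  -- supporting lines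
  have sup0 : ∀ a ∈ Ioo 0 ℓ, ∀ s ∈ Ioo 0 ℓ, φ₀ a + τ₀ a * (s - a) ≤ φ₀ s := by
    intro a ha s hs
    rcases le_total a s with h | h
    · have := (hφ a ha s hs h).1
      linarith
    · have := (hφ s hs a ha h).2
      nlinarith
  have sup1 : ∀ a ∈ Ioo 0 ℓ, ∀ t : ℝ, ∀ s : Ioo (0 : ℝ) ℓ, φ₀ a + τ₀ a * (t - a) ≤ φ₀ s + |t - s| := by
    intro a ha t s
    have h1 := sup0 a ha s s.2
    have h2 : τ₀ a * (t - s) ≤ |t - s| := by
      calc τ₀ a * (t - s) ≤ |τ₀ a * (t - s)| := le_abs_self _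
        _ = |τ₀ a| * |t - s| := abs_mul _ _
        _ ≤ 1 * |t - s| := mul_le_mul_of_nonneg_right (hτ a ha) (abs_nonneg _)
        _ = |t - s| := one_mul _
    nlinarith
  have hbd : ∀ t : ℝ, BddBelow (Set.range (fun s : Ioo (0 : ℝ) ℓ => φ₀ s + |t - s|)) := by
    intro t
    refine ⟨φ₀ (ℓ / 2) + τ₀ (ℓ / 2) * (t - ℓ / 2), ?_⟩
    rintro _ ⟨s, rfl⟩
    exact sup1 (ℓ / 2) ⟨by linarith, by linarith⟩ t s
  have sup : ∀ a ∈ Ioo 0 ℓ, ∀ t : ℝ, φ₀ a + τ₀ a * (t - a) ≤ ext ℓ φ₀ t := fun a ha t =>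
    le_ciInf (fun s => sup1 a ha t s)
  have hle : ∀ (t : ℝ) (s : Ioo (0 : ℝ) ℓ), ext ℓ φ₀ t ≤ φ₀ s + |t - s| := fun t s =>
    ciInf_le (hbd t) s
  have heq : ∀ t ∈ Ioo 0 ℓ, ext ℓ φ₀ t = φ₀ t := by
    intro t ht
    apply le_antisymm
    · have := hle t ⟨t, ht⟩
      simpa using this
    · have := sup t ht t
      simpa using this
  have lip : ∀ t t' : ℝ, ext ℓ φ₀ t' ≤ ext ℓ φ₀ t + |t' - t| := by
    intro t t'
    rw [← sub_le_iff_le_add]
    apply le_ciInf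
    intro s
    have h1 := hle t' s
    have h2 := abs_sub_le t' t s
    linarith
  have left : ∀ t t' : ℝ, t ≤ t' → t' ≤ 0 → ext ℓ φ₀ t' + (t' - t) ≤ ext ℓ φ₀ t := by
    intro t t' h1 h2
    apply le_ciInf
    intro s
    have h3 := hle t' s
    have hs := s.2.1
    rw [abs_of_nonpos (by linarith)] at h3
    rw [abs_of_nonpos (by linarith)]
    linarith
  have right : ∀ t t' : ℝ, t ≤ t' → ℓ ≤ t → ext ℓ φ₀ t + (t' - t) ≤ ext ℓ φ₀ t' := by
    intro t t' h1 h2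
    apply le_ciInf
    intro s
    have h3 := hle t s
    have hs := s.2.2
    rw [abs_of_nonneg (by linarith)] at h3
    rw [abs_of_nonneg (by linarith)]
    linarith
  refine ⟨ext ℓ φ₀, fun t => if t ≤ 0 then -1 else if ℓ ≤ t then 1 else τ₀ t, ⟨?_, ?_⟩, ?_⟩
  · intro t
    dsimp only
    split_ifs with h1 h2
    · simp
    · simp
    · exact hτ t ⟨not_le.1 h1, not_le.1 h2⟩
  · intro t t' htt
    dsimp only
    constructor
    · split_ifs with h1 h2
      · have h3 := lip t' t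
        rw [abs_of_nonpos (by linarith)] at h3
        linarith
      · have h3 := right t t' htt h2
        linarith
      · have h4 : t ∈ Ioo 0 ℓ := ⟨not_le.1 h1, not_le.1 h2⟩
        have h3 := sup t h4 t'
        rw [heq t h4]
        linarith
    · split_ifs with h1 h2
      · have h3 := left t t' htt h1
        linarith
      · have h3 := lip t t'
        rw [abs_of_nonneg (by linarith)] at h3
        linarith
      · have h4 : t' ∈ Ioo 0 ℓ := ⟨not_le.1 h1, not_le.1 h2⟩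
        have h3 := sup t' h4 t
        rw [heq t' h4]
        linarith
  · intro t ht
    refine ⟨heq t ht, ?_⟩
    dsimp only
    rw [if_neg (not_le.2 ht.1), if_neg (not_le.2 ht.2)]

end Pool.Agent.Helper39.RG
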